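import Mathlib

/-! Finite checks for the 96-uniform morphism. -/

namespace Pool.Agent.P.MP_0e1483_co

/-- the images of the three letters, written in base `4` -/
def cd (x : ℕ) : ℕ :=
  if x = 0 then 2382082158381164391003964695172917645625050534694644500580
  else if x = 1 then 3740967006270589869130641641730377931873121497710032210020
  else 2382082158958537055956937285146954283680687254953238087780

/-- letter number `i` of the image of `x` -/
def sy (x i : ℕ) : ℕ := (cd x >>> (2 * i)) % 4

/-- positions of the holes -/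
def hb (i : ℕ) : Bool := i % 16 == 6 || i % 16 == 8 || i % 16 == 15

/-- image of an infinite word -/
def img (a : ℕ → ℕ) (i : ℕ) : ℕ := sy (a (i / 96)) (i % 96)

/-- a word given by its first five letters -/
def sel (x0 x1 x2 x3 x4 : ℕ) (k : ℕ) : ℕ :=
  if k = 0 then x0 else if k = 1 then x1 else if k = 2 then x2 else if k = 3 then x3 else x4

/-- `f j` holds for `k` consecutive values from `j` on -/
def allFrom (f : ℕ → Bool) : ℕ → ℕ → Bool
  | 0, _ => true
  | k + 1, j => f j && allFrom f k (j + 1)

theorem allFrom_iff (f : ℕ → Bool) : ∀ k j, allFrom f k j = true ↔ ∀ i < k, f (j + i) = true := by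
  intro k
  induction k with
  | zero => intro j; simp [allFrom]
  | succ k ih =>
    intro j
    simp only [allFrom, Bool.and_eq_true, ih]
    constructor
    · rintro ⟨a, b⟩ i hi
      cases i with
      | zero => simpa using a
      | succ i =>
        have := b i (by omega)
        rwa [show j + (i + 1) = j + 1 + i by omega]
    · intro h
      refine ⟨by simpa using h 0 (by omega), fun i hi => ?_⟩
      have := h (i + 1) (by omega)
      rwa [show j + (i + 1) = j + 1 + i by omega] at this

/-- packing of `k` bits -/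
def build (f : ℕ → Bool) : ℕ → ℕ → ℕ
  | 0, _ => 0
  | k + 1, s => (if f s then 1 else 0) + 2 * build f k (s + 1)

theorem build_get (f : ℕ → Bool) :
    ∀ p k s, (build f k s).testBit p = true → f (s + p) = true := by
  intro p
  induction p with
  | zero =>
    intro k s h
    cases k with
    | zero => simp [build] at h
    | succ k =>
      rw [Nat.testBit_zero, decide_eq_true_eq, build] at h
      by_contra h'
      rw [Nat.add_zero] at h'
      rw [if_neg h'] at h
      omega
  | succ p ih =>
    intro k s h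
    cases k with
    | zero => simp [build] at h
    | succ k =>
      rw [Nat.testBit_succ, build] at h
      have e : ((if f s = true then 1 else 0) + 2 * build f k (s + 1)) / 2 = build f k (s + 1) := by
        split_ifs <;> omega
      rw [e] at h
      have := ih k (s + 1) h
      rwa [show s + (p + 1) = s + 1 + p by omega]

/-- evaluate the number first -/
def force (n : ℕ) (g : ℕ → Bool) : Bool := Nat.rec (g 0) (fun k _ => g (Nat.succ k)) n

theorem force_eq (n : ℕ) (g : ℕ → Bool) : force n g = g n := by cases n <;> rfl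

/-- `f j` holds for all `j < k` -/
def allBelow (f : ℕ → Bool) (k : ℕ) : Bool := Nat.rec true (fun j r => f j && r) k

theorem allBelow_iff (f : ℕ → Bool) : ∀ k, allBelow f k = true ↔ ∀ i < k, f i = true := by
  intro k
  induction k with
  | zero => simp [allBelow]
  | succ k ih =>
    have e : allBelow f (k + 1) = (f k && allBelow f k) := rfl
    rw [e, Bool.and_eq_true, ih]
    constructor
    · rintro ⟨a, b⟩ i hi
      by_cases h : i = k
      · exact h ▸ a
      · exact b i (by omega)
    · intro h
      exact ⟨h k (by omega), fun i hi => h i (by omega)⟩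

/-- spreading the bits of `M` over windows of length `2 ^ k` -/
def smear (M k : ℕ) : ℕ := Nat.rec M (fun j r => r ||| (r >>> (2 ^ j))) k

theorem smear_get (M : ℕ) : ∀ k p, (smear M k).testBit p = true →
    ∃ j < 2 ^ k, M.testBit (p + j) = true := by
  intro k
  induction k with
  | zero => intro p h; exact ⟨0, by norm_num, h⟩
  | succ k ih =>
    intro p h
    have e : smear M (k + 1) = smear M k ||| (smear M k >>> (2 ^ k)) := rfl
    rw [e, Nat.testBit_or, Bool.or_eq_true, Nat.testBit_shiftRight] at h
    rcases h with h | h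
    · obtain ⟨j, a, b⟩ := ih p h
      exact ⟨j, by rw [pow_succ]; omega, b⟩
    · obtain ⟨j, a, b⟩ := ih _ h
      refine ⟨2 ^ k + j, by rw [pow_succ]; omega, ?_⟩
      rwa [show p + (2 ^ k + j) = 2 ^ k + p + j by omega]

/-- every window of length `m` starting below `96` meets a bit of `M` -/
def covers (M m : ℕ) : Bool :=
  force (Nat.log2 m) fun k => Nat.ble (2 ^ k) m && force (smear M k) fun S =>
    Nat.beq ((S ||| (S >>> (m - 2 ^ k))) % 2 ^ 96) (2 ^ 96 - 1)

theorem covers_get {M m : ℕ} (h : covers M m = true) (s : ℕ) (hs : s < 96) :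
    ∃ j < m, M.testBit (s + j) = true := by
  unfold covers at h
  rw [force_eq, Bool.and_eq_true, force_eq, Nat.ble_eq, Nat.beq_eq] at h
  obtain ⟨h1, h2⟩ := h
  have h3 := congrArg (fun x => x.testBit s) h2
  simp only [Nat.testBit_mod_two_pow, Nat.testBit_two_pow_sub_one, hs, decide_true,
    Bool.true_and, Nat.testBit_or, Bool.or_eq_true, Nat.testBit_shiftRight] at h3
  rcases h3 with h | h
  · obtain ⟨j, a, b⟩ := smear_get M _ _ h
    exact ⟨j, by omega, b⟩
  · obtain ⟨j, a, b⟩ := smear_get M _ _ h
    refine ⟨m - 2 ^ m.log2 + j, by omega, ?_⟩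
    rwa [show s + (m - 2 ^ m.log2 + j) = m - 2 ^ m.log2 + s + j by omega]

/-- the positions of the letter `c` outside the holes -/
def mask (a : ℕ → ℕ) (c : ℕ) : ℕ := build (fun i => !(hb i) && img a i == c) 480 0

/-- no short square with holes starts in the first block -/
def chkC (x0 x1 x2 x3 x4 : ℕ) : Bool :=
  force (mask (sel x0 x1 x2 x3 x4) 0) fun X0 =>
  force (mask (sel x0 x1 x2 x3 x4) 1) fun X1 =>
  force (mask (sel x0 x1 x2 x3 x4) 2) fun X2 =>
    allBelow (fun m => Nat.ble m 1 ||
      force ((X0 &&& ((X1 ||| X2) >>> m)) ||| (X1 &&& ((X0 ||| X2) >>> m)) |||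
        (X2 &&& ((X0 ||| X1) >>> m))) fun M => covers M m) 191

theorem chkC_sound {x0 x1 x2 x3 x4 : ℕ} (h : chkC x0 x1 x2 x3 x4 = true) (s m : ℕ) (hs : s < 96)
    (h2 : 2 ≤ m) (hm : m ≤ 190) : ∃ j < m, hb (s + j) = false ∧ hb (s + m + j) = false ∧
      img (sel x0 x1 x2 x3 x4) (s + j) ≠ img (sel x0 x1 x2 x3 x4) (s + m + j) := by
  unfold chkC at h
  rw [force_eq, force_eq, force_eq, allBelow_iff] at h
  have h1 := h m (by omega)
  rw [Bool.or_eq_true, Nat.ble_eq, force_eq] at h1
  rcases h1 with h1 | h1
  · omega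
  obtain ⟨j, hj, hb'⟩ := covers_get h1 s hs
  refine ⟨j, hj, ?_⟩
  have key : ∀ c p, (mask (sel x0 x1 x2 x3 x4) c).testBit p = true →
      hb p = false ∧ img (sel x0 x1 x2 x3 x4) p = c := by
    intro c p hp
    have := build_get _ p 480 0 hp
    simpa using this
  simp only [Nat.testBit_or, Nat.testBit_and, Nat.testBit_shiftRight, Bool.or_eq_true,
    Bool.and_eq_true] at hb'
  rw [show m + (s + j) = s + m + j by omega] at hb'
  rcases hb' with (⟨a, b | b⟩ | ⟨a, b | b⟩) | ⟨a, b | b⟩ <;>
  · obtain ⟨a1, a2⟩ := key _ _ a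
    obtain ⟨b1, b2⟩ := key _ _ b
    exact ⟨a1, b1, by omega⟩

/-- all square-free five-letter words with a given first letter -/
def chkCall (x0 : ℕ) : Bool :=
  allBelow (fun x1 => allBelow (fun x2 => allBelow (fun x3 => allBelow (fun x4 =>
    x0 == x1 || x1 == x2 || x2 == x3 || x3 == x4 || (x0 == x2 && x1 == x3) ||
      (x1 == x3 && x2 == x4) || chkC x0 x1 x2 x3 x4) 3) 3) 3) 3

theorem chkCall0 : chkCall 0 = true := by decide +kernel
theorem chkCall1 : chkCall 1 = true := by decide +kernel
theorem chkCall2 : chkCall 2 = true := by decide +kernel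

theorem checkLt : ∀ x < 3, ∀ i < 96, sy x i < 3 := by decide +kernel

theorem checkA : ∀ x < 3, ∀ y < 3, ∀ i < 96,
    img (sel x y 0 0 0) i ≠ img (sel x y 0 0 0) (i + 1) := by decide +kernel

theorem checkB : ∀ x < 3, ∀ y < 3, ∀ i < 96,
    ¬ (img (sel x y 0 0 0) i = img (sel x y 0 0 0) (i + 2) ∧
      img (sel x y 0 0 0) (i + 1) = img (sel x y 0 0 0) (i + 3)) := by decide +kernel

theorem checkD : ∀ x < 3, ∀ y < 3, ∀ z < 3, ∀ i < 95,
    allFrom (fun j => hb j || hb (i + 1 + j) ||
      sy z j == img (sel x y 0 0 0) (i + 1 + j)) 96 0 = false := by decide +kernel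

theorem checkE0 : ∀ x < 3, ∀ y < 3, (∀ j < 96, hb j = true ∨ sy x j = sy y j) → x = y := by
  decide +kernel

theorem checkE : ∀ x < 3, ∀ y < 3, ∀ z < 3, ∀ r < 96,
    (x == y || y == z || !(allFrom (fun j => hb j || sy x j == sy y j) (96 - r) r) ||
      !(allFrom (fun j => hb j || sy y j == sy z j) r 0)) = true := by
  decide +kernel

end Pool.Agent.P.MP_0e1483_co
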