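import Mathlib

/-!
Definitions for the flexibility of ternary square-free words.
Positions of an infinite word are numbered from `0`; the alphabet `{a,b,c}` is `Fin 3`;
a letter of a word with holes is `some x`, and the hole is `none`.
-/

namespace Pool.Agent.P.MP_0e1483_co

open Filter

/-- The infinite word `u` has no factor `xx` with `x` nonempty. -/
def SquareFree (u : ℕ → Fin 3) : Prop :=
  ¬ ∃ i m : ℕ, 1 ≤ m ∧ ∀ j < m, u (i + j) = u (i + m + j)

/-- Two symbols are compatible if they are equal or one of them is the hole. -/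
def Compat (x y : Option (Fin 3)) : Prop :=
  x = y ∨ x = none ∨ y = none

/-- The word with holes `w` has no factor `v v'` with `|v| = |v'| = m ≥ 2` and `v, v'`
compatible. -/
def HoleSquareFree (w : ℕ → Option (Fin 3)) : Prop :=
  ¬ ∃ i m : ℕ, 2 ≤ m ∧ ∀ j < m, Compat (w (i + j)) (w (i + m + j))

open Classical in
/-- `u_P`: the word `u` with the letters at the positions of `P` replaced by holes. -/
noncomputable def punch (u : ℕ → Fin 3) (P : Set ℕ) : ℕ → Option (Fin 3) :=
  fun i => if i ∈ P then none else some (u i)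

/-- `d(P)`: the upper density of a set of positions. -/
noncomputable def upperDensity (P : Set ℕ) : ℝ :=
  limsup (fun n : ℕ => ((P ∩ Set.Iio n).ncard : ℝ) / (n : ℝ)) atTop

/-- `flex(u)`: the supremum of `d(P)` over the wildcard sets `P` for `u`. -/
noncomputable def flex (u : ℕ → Fin 3) : ℝ :=
  sSup {d : ℝ | ∃ P : Set ℕ, HoleSquareFree (punch u P) ∧ d = upperDensity P}

/-- `v = φ^ω(x)`: the morphism `φ` is prolongable on `x` (the image of `x` starts with `x` and the
lengths of the words `φ^k(x)` are unbounded) and every `φ^k(x)` is an initial segment of `v`. -/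
def IsLimitWord {A : Type} (φ : A → List A) (x : A) (v : ℕ → A) : Prop :=
  (∃ s : List A, φ x = x :: s) ∧
  (∀ n : ℕ, ∃ k : ℕ, n < ((fun w : List A => w.flatMap φ)^[k] [x]).length) ∧
  (∀ k i : ℕ, i < ((fun w : List A => w.flatMap φ)^[k] [x]).length →
    ((fun w : List A => w.flatMap φ)^[k] [x])[i]? = some (v i))

/-- `u = φ^ω(x)` for a morphism `φ` of the ternary alphabet. -/
def PurelyMorphic (u : ℕ → Fin 3) : Prop :=
  ∃ (φ : Fin 3 → List (Fin 3)) (x : Fin 3), IsLimitWord φ x u

/-- `u = τ(φ^ω(x))` for a morphism `φ` of a finite alphabet and a coding `τ`. -/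
def Morphic (u : ℕ → Fin 3) : Prop :=
  ∃ (n : ℕ) (φ : Fin n → List (Fin n)) (x : Fin n) (v : ℕ → Fin n) (τ : Fin n → Fin 3),
    IsLimitWord φ x v ∧ ∀ i, u i = τ (v i)

end Pool.Agent.P.MP_0e1483_co
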