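import Pool.Agent.P.MP_0e1483_co.Upper
import Pool.Agent.P.MP_0e1483_co.Checks

/-! A purely morphic square-free word of flexibility `3/16`. -/

namespace Pool.Agent.P.MP_0e1483_co

open Filter

/-- the fixed point of the morphism, with letters coded by `0, 1, 2` -/
def U (n : ℕ) : ℕ :=
  if h : n = 0 then 0 else sy (U (n / 96)) (n % 96)
termination_by n
decreasing_by omega

theorem U_eq (n : ℕ) : U n = sy (U (n / 96)) (n % 96) := by
  by_cases h : n = 0
  · subst h
    have h0 : U 0 = 0 := by rw [U]; simp
    rw [Nat.zero_div, Nat.zero_mod, h0]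
    decide +kernel
  · rw [U]
    simp [h]

theorem U_lt (n : ℕ) : U n < 3 := by
  induction n using Nat.strong_induction_on with
  | _ n ih =>
    by_cases h : n = 0
    · subst h
      rw [U]
      simp
    · rw [U_eq]
      exact checkLt _ (ih _ (by omega)) _ (Nat.mod_lt _ (by norm_num))

theorem U_blk (k i : ℕ) (hi : i < 96) : U (96 * k + i) = sy (U k) i := by
  rw [U_eq, show (96 * k + i) / 96 = k by omega, show (96 * k + i) % 96 = i by omega]

theorem U_sel2 (k i : ℕ) (hi : i < 192) :
    U (96 * k + i) = img (sel (U k) (U (k + 1)) 0 0 0) i := by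
  rw [U_eq, show (96 * k + i) / 96 = k + i / 96 by omega,
    show (96 * k + i) % 96 = i % 96 by omega]
  unfold img sel
  by_cases h : i < 96
  · simp [show i / 96 = 0 by omega]
  · simp [show i / 96 = 1 by omega]

theorem U_sel5 (k i : ℕ) (hi : i < 480) :
    U (96 * k + i) = img (sel (U k) (U (k + 1)) (U (k + 2)) (U (k + 3)) (U (k + 4))) i := by
  rw [U_eq, show (96 * k + i) / 96 = k + i / 96 by omega,
    show (96 * k + i) % 96 = i % 96 by omega]
  unfold img sel
  have : i / 96 = 0 ∨ i / 96 = 1 ∨ i / 96 = 2 ∨ i / 96 = 3 ∨ i / 96 = 4 := by omega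
  rcases this with h | h | h | h | h <;> simp [h]

theorem hb_blk (k i : ℕ) : hb (96 * k + i) = hb i := by
  unfold hb
  rw [show (96 * k + i) % 16 = i % 16 by omega]

theorem U_one (n : ℕ) : U n ≠ U (n + 1) := by
  have e : n = 96 * (n / 96) + n % 96 := by omega
  have hi : n % 96 < 96 := Nat.mod_lt _ (by norm_num)
  rw [e, Nat.add_assoc, U_sel2 _ _ (by omega), U_sel2 _ _ (by omega)]
  exact checkA _ (U_lt _) _ (U_lt _) _ hi

theorem U_two (n : ℕ) : ¬ (U n = U (n + 2) ∧ U (n + 1) = U (n + 3)) := by
  have e : n = 96 * (n / 96) + n % 96 := by omega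
  have hi : n % 96 < 96 := Nat.mod_lt _ (by norm_num)
  rw [e, Nat.add_assoc, Nat.add_assoc, Nat.add_assoc, U_sel2 _ _ (by omega),
    U_sel2 _ _ (by omega), U_sel2 _ _ (by omega), U_sel2 _ _ (by omega)]
  exact checkB _ (U_lt _) _ (U_lt _) _ hi

/-- compatibility of two positions of the word with holes -/
def CP (p q : ℕ) : Prop := hb p = true ∨ hb q = true ∨ U p = U q

theorem chkC_U (k : ℕ) :
    chkC (U k) (U (k + 1)) (U (k + 2)) (U (k + 3)) (U (k + 4)) = true := by
  have h0 : chkCall (U k) = true := by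
    have := U_lt k
    have h : U k = 0 ∨ U k = 1 ∨ U k = 2 := by omega
    rcases h with h | h | h <;> rw [h]
    exacts [chkCall0, chkCall1, chkCall2]
  unfold chkCall at h0
  simp only [allBelow_iff] at h0
  have h1 := h0 _ (U_lt (k + 1)) _ (U_lt (k + 2)) _ (U_lt (k + 3)) _ (U_lt (k + 4))
  simp only [Bool.or_eq_true, Bool.and_eq_true, beq_iff_eq] at h1
  have a0 := U_one k
  have a1 := U_one (k + 1)
  have a2 := U_one (k + 2)
  have a3 := U_one (k + 3)
  have b0 := U_two k
  have b1 := U_two (k + 1)
  simp only [Nat.add_assoc, Nat.reduceAdd] at a1 a2 a3 b1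
  rcases h1 with (((((h | h) | h) | h) | h) | h) | h
  exacts [absurd h a0, absurd h a1, absurd h a2, absurd h a3, absurd h b0, absurd h b1, h]

theorem short (s m : ℕ) (h2 : 2 ≤ m) (hm : m ≤ 190) : ¬ ∀ j < m, CP (s + j) (s + m + j) := by
  intro h
  have hi : s % 96 < 96 := Nat.mod_lt _ (by norm_num)
  obtain ⟨j, hj, a, b, c⟩ := chkC_sound (chkC_U (s / 96)) (s % 96) m hi h2 hm
  have h1 := h j hj
  unfold CP at h1
  rw [show s + j = 96 * (s / 96) + (s % 96 + j) by omega,
    show s + m + j = 96 * (s / 96) + (s % 96 + m + j) by omega, hb_blk, hb_blk,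
    U_sel5 _ _ (by omega), U_sel5 _ _ (by omega), a, b] at h1
  simp only [Bool.false_eq_true, false_or] at h1
  exact c h1

theorem sync (s m : ℕ) (hm : 191 ≤ m) (h : ∀ j < m, CP (s + j) (s + m + j)) : m % 96 = 0 := by
  by_contra h0
  have hi : m % 96 < 96 := Nat.mod_lt _ (by norm_num)
  obtain ⟨t, ht1, ht2⟩ : ∃ t, s ≤ 96 * t ∧ 96 * t ≤ s + 95 := ⟨(s + 95) / 96, by omega, by omega⟩
  have hD := checkD _ (U_lt (t + m / 96)) _ (U_lt (t + m / 96 + 1)) _ (U_lt t) (m % 96 - 1)
    (by omega)
  rw [Bool.eq_false_iff] at hD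
  apply hD
  rw [allFrom_iff]
  intro j hj
  have h1 := h (96 * t - s + j) (by omega)
  unfold CP at h1
  rw [show s + (96 * t - s + j) = 96 * t + j by omega,
    show s + m + (96 * t - s + j) = 96 * (t + m / 96) + (m % 96 - 1 + 1 + j) by omega,
    hb_blk, hb_blk, U_blk _ _ hj, U_sel2 _ _ (by omega)] at h1
  simpa [or_assoc] using h1

theorem descend (s q : ℕ) (hq : 1 ≤ q) (h : ∀ j < 96 * q, CP (s + j) (s + 96 * q + j)) :
    ∃ s', ∀ j < q, U (s' + j) = U (s' + q + j) := by
  have hr : s % 96 < 96 := Nat.mod_lt _ (by norm_num)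
  have hs : s = 96 * (s / 96) + s % 96 := by omega
  generalize s / 96 = k at hs
  generalize s % 96 = r at hs hr
  have key : ∀ t j, j < 96 → s ≤ 96 * t + j → 96 * t + j < s + 96 * q →
      (hb j = true ∨ sy (U t) j = sy (U (t + q)) j) := by
    intro t j hj a b
    have h1 := h (96 * t + j - s) (by omega)
    unfold CP at h1
    rw [show s + (96 * t + j - s) = 96 * t + j by omega,
      show s + 96 * q + (96 * t + j - s) = 96 * (t + q) + j by omega,
      hb_blk, hb_blk, U_blk _ _ hj, U_blk _ _ hj] at h1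
    tauto
  have mid : ∀ t, k + 1 ≤ t → t < k + q → U t = U (t + q) := by
    intro t a b
    exact checkE0 _ (U_lt _) _ (U_lt _) fun j hj => key t j hj (by omega) (by omega)
  have hE := checkE _ (U_lt k) _ (U_lt (k + q)) _ (U_lt (k + q + q)) r hr
  have e1 : allFrom (fun j => hb j || sy (U k) j == sy (U (k + q)) j) (96 - r) r = true := by
    rw [allFrom_iff]
    intro i hi
    simpa using key k (r + i) (by omega) (by omega) (by omega)
  have e2 : allFrom (fun j => hb j || sy (U (k + q)) j == sy (U (k + q + q)) j) r 0 = true := by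
    rw [allFrom_iff]
    intro i hi
    simpa using key (k + q) i (by omega) (by omega) (by omega)
  rw [e1, e2] at hE
  simp only [Bool.not_true, Bool.or_false, Bool.or_eq_true, beq_iff_eq] at hE
  rcases hE with hE | hE
  · refine ⟨k, fun j hj => ?_⟩
    by_cases h0 : j = 0
    · subst h0
      simpa using hE
    · rw [show k + q + j = k + j + q by omega]
      exact mid _ (by omega) (by omega)
  · refine ⟨k + 1, fun j hj => ?_⟩
    rw [show k + 1 + q + j = k + 1 + j + q by omega]
    by_cases h0 : j + 1 = q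
    · rw [show k + 1 + j = k + q by omega]
      exact hE
    · exact mid _ (by omega) (by omega)

theorem noSquare : ∀ m, 2 ≤ m → ∀ s, ¬ ∀ j < m, CP (s + j) (s + m + j) := by
  intro m
  induction m using Nat.strong_induction_on with
  | _ m ih =>
    intro h2 s h
    by_cases hm : m ≤ 190
    · exact short s m h2 hm h
    · have h0 := sync s m (by omega) h
      obtain ⟨q, rfl⟩ : ∃ q, m = 96 * q := ⟨m / 96, by omega⟩
      obtain ⟨s', hs'⟩ := descend s q (by omega) h
      exact ih q (by omega) (by omega) s' fun j hj => Or.inr (Or.inr (hs' j hj))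

/-- the fixed point as a word over `Fin 3` -/
def uu (n : ℕ) : Fin 3 := ⟨U n, U_lt n⟩

/-- the morphism -/
def ph (x : Fin 3) : List (Fin 3) :=
  List.ofFn fun i : Fin 96 => (⟨sy x.val i.val, checkLt _ x.isLt _ i.isLt⟩ : Fin 3)

/-- the wildcard set -/
def PP : Set ℕ := {i | hb i = true}

theorem uu_squareFree : SquareFree uu := by
  rintro ⟨i, m, hm, h⟩
  by_cases h1 : m = 1
  · subst h1
    have := h 0 (by omega)
    exact U_one i (congrArg Fin.val this)
  · exact noSquare m (by omega) i fun j hj => Or.inr (Or.inr (congrArg Fin.val (h j hj)))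

theorem PP_wild : HoleSquareFree (punch uu PP) := by
  rintro ⟨i, m, hm, h⟩
  apply noSquare m hm i
  intro j hj
  have h1 := h j hj
  unfold Compat punch at h1
  by_cases a : hb (i + j) = true
  · exact Or.inl a
  by_cases b : hb (i + m + j) = true
  · exact Or.inr (Or.inl b)
  have a' : i + j ∉ PP := a
  have b' : i + m + j ∉ PP := b
  simp only [a', b', if_false, reduceCtorEq, or_false, Option.some.injEq] at h1
  exact Or.inr (Or.inr (congrArg Fin.val h1))

theorem PP_count (n : ℕ) : 3 * (n / 16) ≤ (PP ∩ Set.Iio n).ncard := by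
  classical
  have key : ∀ n, 3 * (n / 16) + (if 7 ≤ n % 16 then 1 else 0) + (if 9 ≤ n % 16 then 1 else 0)
      ≤ (PP ∩ Set.Iio n).ncard := by
    intro n
    induction n with
    | zero => simp
    | succ n ih =>
      rw [ncard_succ]
      have e : n ∈ PP ↔ (n % 16 = 6 ∨ n % 16 = 8 ∨ n % 16 = 15) := by
        simp [PP, hb, or_assoc]
      by_cases hn : n ∈ PP
      · rw [if_pos hn]
        rw [e] at hn
        split_ifs at ih ⊢ <;> omega
      · rw [if_neg hn]
        rw [e] at hn
        split_ifs at ih ⊢ <;> omega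
  have := key n
  omega

theorem PP_density : upperDensity PP = 3 / 16 := by
  unfold upperDensity
  apply Tendsto.limsup_eq
  refine tendsto_of_tendsto_of_tendsto_of_le_of_le' (tendsto_aux (-3)) (tendsto_aux 27) ?_
    (ratio_le uu_squareFree PP_wild)
  filter_upwards [eventually_gt_atTop 0] with n hn
  have h := PP_count n
  have h1 : 3 * n ≤ 16 * (PP ∩ Set.Iio n).ncard + 48 := by omega
  have h' : (3 : ℝ) * n ≤ 16 * ((PP ∩ Set.Iio n).ncard : ℝ) + 48 := by exact_mod_cast h1
  have hn' : (0 : ℝ) < n := by exact_mod_cast hn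
  rw [le_div_iff₀ hn', add_mul, div_mul_cancel₀ _ hn'.ne']
  linarith

theorem flex_uu : flex uu = 3 / 16 := by
  apply le_antisymm (flex_le uu_squareFree)
  unfold flex
  apply le_csSup
  · refine ⟨3 / 16, ?_⟩
    rintro d ⟨P, hP, rfl⟩
    exact upperDensity_le uu_squareFree hP
  · exact ⟨PP, PP_wild, PP_density.symm⟩

theorem flatMap_range (n : ℕ) :
    ((List.range n).map uu).flatMap ph = (List.range (96 * n)).map uu := by
  induction n with
  | zero => simp
  | succ n ih =>
    rw [List.range_succ, List.map_append, List.flatMap_append, ih, Nat.mul_succ, List.range_add,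
      List.map_append]
    congr 1
    simp only [List.map_cons, List.map_nil, List.flatMap_cons, List.flatMap_nil, List.append_nil,
      List.map_map]
    apply List.ext_getElem
    · rw [ph, List.length_ofFn, List.length_map, List.length_range]
    · intro i h1 h2
      have hi : i < 96 := by simpa using h2
      simp only [ph, List.getElem_ofFn, List.getElem_map, List.getElem_range, Function.comp]
      apply Fin.ext
      exact (U_blk n i hi).symm

theorem iter_eq (k : ℕ) :
    (fun w : List (Fin 3) => w.flatMap ph)^[k] [uu 0] = (List.range (96 ^ k)).map uu := by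
  induction k with
  | zero => simp
  | succ k ih =>
    rw [Function.iterate_succ_apply', ih, flatMap_range, pow_succ, Nat.mul_comm]

theorem uu_limit : IsLimitWord ph (uu 0) uu := by
  refine ⟨?_, ?_, ?_⟩
  · have h := iter_eq 1
    simp only [Function.iterate_one, List.flatMap_cons, List.flatMap_nil, List.append_nil,
      pow_one] at h
    rw [h, show (96 : ℕ) = 95 + 1 from rfl, List.range_succ_eq_map]
    exact ⟨_, rfl⟩
  · intro n
    refine ⟨n, ?_⟩
    rw [iter_eq]
    simp only [List.length_map, List.length_range]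
    exact Nat.lt_pow_self (by norm_num)
  · intro k i hi
    rw [iter_eq] at hi ⊢
    simp only [List.length_map, List.length_range] at hi
    simp [hi]

theorem uu_purelyMorphic : PurelyMorphic uu := ⟨ph, uu 0, uu_limit⟩

theorem uu_morphic : Morphic uu := ⟨3, ph, uu 0, uu, id, uu_limit, fun _ => rfl⟩

end Pool.Agent.P.MP_0e1483_co
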