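import Pool.Agent.P.MP_0e1483_co.Defs

/-! The upper bound `3/16` for the density of a wildcard set. -/

namespace Pool.Agent.P.MP_0e1483_co

open Filter

/-- compatibility of two codes; the code of the hole is `3` -/
def cmpB (x y : ℕ) : Bool := x == y || x == 3 || y == 3

/-- the coded word ends with a forbidden factor -/
def badB (l : List ℕ) : Bool :=
  (2 ≤ l.length && (l.getD (l.length - 2) 0 == l.getD (l.length - 1) 0) &&
      l.getD (l.length - 2) 0 != 3) ||
    (List.range l.length).any fun m =>
      2 ≤ m && 2 * m ≤ l.length &&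
        (List.range m).all fun j =>
          cmpB (l.getD (l.length - 2 * m + j) 0) (l.getD (l.length - 2 * m + m + j) 0)

/-- depth first search -/
def chkB : ℕ → List ℕ → ℕ → Bool
  | 0, _, _ => false
  | f + 1, l, h => [0, 1, 2, 3].all fun x =>
      (16 * (if x = 3 then h + 1 else h) ≤ 3 * (l.length + 1)) || badB (l ++ [x]) ||
        chkB f (l ++ [x]) (if x = 3 then h + 1 else h)

theorem chkB_true : chkB 27 [] 0 = true := by decide +kernel

/-- the factor of length `n` at position `s` -/
def fac (c : ℕ → ℕ) (s n : ℕ) : List ℕ := (List.range n).map fun i => c (s + i)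

/-- the number of holes in the factor of length `n` at position `s` -/
def hol (c : ℕ → ℕ) (s : ℕ) : ℕ → ℕ
  | 0 => 0
  | n + 1 => if c (s + n) = 3 then hol c s n + 1 else hol c s n

theorem fac_length (c : ℕ → ℕ) (s n : ℕ) : (fac c s n).length = n := by simp [fac]

theorem fac_succ (c : ℕ → ℕ) (s n : ℕ) : fac c s (n + 1) = fac c s n ++ [c (s + n)] := by
  simp [fac, List.range_succ]

theorem fac_getD (c : ℕ → ℕ) (s n k : ℕ) (hk : k < n) : (fac c s n).getD k 0 = c (s + k) := by
  simp [fac, List.getD, hk]

/-- validity of a coded infinite word -/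
structure Valid (c : ℕ → ℕ) : Prop where
  lt : ∀ i, c i < 4
  one : ∀ i, c i = c (i + 1) → c i = 3
  two : ∀ i m, 2 ≤ m → ¬ ∀ j < m, cmpB (c (i + j)) (c (i + m + j)) = true

theorem badB_fac {c : ℕ → ℕ} (hc : Valid c) (s n : ℕ) : badB (fac c s n) = false := by
  rw [Bool.eq_false_iff]
  intro h
  unfold badB at h
  rw [fac_length] at h
  simp only [Bool.or_eq_true, Bool.and_eq_true, decide_eq_true_eq, beq_iff_eq, bne_iff_ne,
    List.any_eq_true, List.all_eq_true, List.mem_range] at h
  rcases h with ⟨⟨h2, h3⟩, h4⟩ | ⟨m, _, ⟨h2, h3⟩, h4⟩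
  · rw [fac_getD c s n _ (by omega)] at h3 h4
    rw [fac_getD c s n _ (by omega)] at h3
    apply h4
    apply hc.one
    rw [h3]
    congr 1
    omega
  · apply hc.two (s + (n - 2 * m)) m h2
    intro j hj
    have := h4 j hj
    rw [fac_getD c s n _ (by omega), fac_getD c s n _ (by omega)] at this
    simpa [Nat.add_assoc] using this

theorem chkB_sound {c : ℕ → ℕ} (hc : Valid c) (s : ℕ) :
    ∀ f n, chkB f (fac c s n) (hol c s n) = true →
      ∃ k, n < k ∧ k ≤ n + f ∧ 16 * hol c s k ≤ 3 * k := by
  intro f
  induction f with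
  | zero => intro n h; simp [chkB] at h
  | succ f ih =>
    intro n h
    unfold chkB at h
    rw [List.all_eq_true] at h
    have hx : c (s + n) ∈ [0, 1, 2, 3] := by
      have := hc.lt (s + n)
      simp only [List.mem_cons, List.not_mem_nil, or_false]
      omega
    have h1 := h _ hx
    rw [← fac_succ, fac_length, badB_fac hc] at h1
    have e : (if c (s + n) = 3 then hol c s n + 1 else hol c s n) = hol c s (n + 1) := rfl
    rw [e] at h1
    simp only [Bool.or_false, Bool.or_eq_true, decide_eq_true_eq] at h1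
    rcases h1 with h1 | h1
    · exact ⟨n + 1, by omega, by omega, h1⟩
    · obtain ⟨k, a, b, d⟩ := ih _ h1
      exact ⟨k, by omega, by omega, d⟩

theorem hol_add (c : ℕ → ℕ) (s k : ℕ) : ∀ n, hol c s (k + n) = hol c s k + hol c (s + k) n := by
  intro n
  induction n with
  | zero => simp [hol]
  | succ n ih =>
    rw [← Nat.add_assoc]
    simp only [hol, ih, Nat.add_assoc]
    split_ifs <;> omega

theorem hol_le (c : ℕ → ℕ) (s : ℕ) : ∀ n, hol c s n ≤ n := by
  intro n
  induction n with
  | zero => simp [hol]
  | succ n ih => simp only [hol]; split_ifs <;> omega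

theorem hol_bound {c : ℕ → ℕ} (hc : Valid c) :
    ∀ n s, 16 * hol c s n ≤ 3 * n + 16 * 27 := by
  intro n
  induction n using Nat.strong_induction_on with
  | _ n ih =>
    intro s
    by_cases hn : n ≤ 27
    · have := hol_le c s n
      omega
    · obtain ⟨k, a, b, d⟩ := chkB_sound hc s 27 0 (by simpa [fac, hol] using chkB_true)
      have e : n = k + (n - k) := by omega
      have := ih (n - k) (by omega) (s + k)
      rw [e, hol_add]
      omega

theorem ncard_succ (P : Set ℕ) [DecidablePred (· ∈ P)] (n : ℕ) :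
    (P ∩ Set.Iio (n + 1)).ncard =
      if n ∈ P then (P ∩ Set.Iio n).ncard + 1 else (P ∩ Set.Iio n).ncard := by
  split_ifs with h
  · have : P ∩ Set.Iio (n + 1) = insert n (P ∩ Set.Iio n) := by
      ext x
      simp only [Set.mem_inter_iff, Set.mem_Iio, Set.mem_insert_iff]
      constructor
      · rintro ⟨a, b⟩
        by_cases e : x = n
        · exact Or.inl e
        · exact Or.inr ⟨a, by omega⟩
      · rintro (rfl | ⟨a, b⟩)
        · exact ⟨h, by omega⟩
        · exact ⟨a, by omega⟩
    rw [this, Set.ncard_insert_of_notMem (by simp)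
      ((Set.finite_Iio n).subset Set.inter_subset_right)]
  · congr 1
    ext x
    simp only [Set.mem_inter_iff, Set.mem_Iio]
    constructor
    · rintro ⟨a, b⟩
      refine ⟨a, ?_⟩
      by_cases e : x = n
      · exact absurd (e ▸ a) h
      · omega
    · rintro ⟨a, b⟩
      exact ⟨a, by omega⟩

theorem ncard_bound {u : ℕ → Fin 3} (hu : SquareFree u) {P : Set ℕ}
    (hP : HoleSquareFree (punch u P)) (n : ℕ) :
    16 * (P ∩ Set.Iio n).ncard ≤ 3 * n + 16 * 27 := by
  classical
  let c : ℕ → ℕ := fun i => if i ∈ P then 3 else (u i).val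
  have hc3 : ∀ i, c i = 3 ↔ i ∈ P := by
    intro i
    by_cases h : i ∈ P
    · simp [c, h]
    · have := (u i).isLt
      simp only [c, h, if_false, iff_false]
      omega
  have hc : Valid c := by
    refine ⟨?_, ?_, ?_⟩
    · intro i
      have := (u i).isLt
      simp only [c]
      split_ifs <;> omega
    · intro i h
      by_contra h3
      have h4 : c (i + 1) ≠ 3 := h ▸ h3
      rw [hc3] at h3
      rw [Ne, hc3] at h4
      simp only [c, h3, h4, if_false] at h
      apply hu
      refine ⟨i, 1, le_rfl, ?_⟩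
      intro j hj
      have : j = 0 := by omega
      subst this
      exact Fin.ext h
    · intro i m hm h
      apply hP
      refine ⟨i, m, hm, ?_⟩
      intro j hj
      have := h j hj
      simp only [cmpB, Bool.or_eq_true, beq_iff_eq, hc3] at this
      unfold Compat punch
      by_cases a : i + j ∈ P
      · simp [a]
      · by_cases b : i + m + j ∈ P
        · simp [b]
        · simp only [a, b, or_false, c, if_false] at this
          left
          simp only [a, b, if_false]
          rw [Fin.ext this]
  have e : ∀ n, (P ∩ Set.Iio n).ncard = hol c 0 n := by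
    intro n
    induction n with
    | zero => simp [hol]
    | succ n ih => rw [ncard_succ, ih]; simp only [hol, Nat.zero_add, hc3]
  rw [e]
  exact hol_bound hc n 0

theorem tendsto_aux (C : ℝ) :
    Tendsto (fun n : ℕ => (3 / 16 : ℝ) + C / (n : ℝ)) atTop (nhds (3 / 16)) := by
  have := (tendsto_const_div_atTop_nhds_zero_nat C).const_add (3 / 16 : ℝ)
  simpa using this

theorem ratio_le {u : ℕ → Fin 3} (hu : SquareFree u) {P : Set ℕ}
    (hP : HoleSquareFree (punch u P)) :
    ∀ᶠ n : ℕ in atTop,
      ((P ∩ Set.Iio n).ncard : ℝ) / (n : ℝ) ≤ (3 / 16 : ℝ) + 27 / (n : ℝ) := by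
  filter_upwards [eventually_gt_atTop 0] with n hn
  have h := ncard_bound hu hP n
  have h' : (16 : ℝ) * ((P ∩ Set.Iio n).ncard : ℝ) ≤ 3 * n + 16 * 27 := by exact_mod_cast h
  have hn' : (0 : ℝ) < n := by exact_mod_cast hn
  rw [div_le_iff₀ hn', add_mul, div_mul_cancel₀ _ hn'.ne']
  linarith

theorem upperDensity_le {u : ℕ → Fin 3} (hu : SquareFree u) {P : Set ℕ}
    (hP : HoleSquareFree (punch u P)) : upperDensity P ≤ 3 / 16 := by
  unfold upperDensity
  rw [← (tendsto_aux 27).limsup_eq]
  refine limsup_le_limsup (ratio_le hu hP) ?_ ?_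
  · exact isCoboundedUnder_le_of_le atTop (x := 0) (fun n => by positivity)
  · exact (tendsto_aux 27).isBoundedUnder_le

theorem flex_le {u : ℕ → Fin 3} (hu : SquareFree u) : flex u ≤ 3 / 16 := by
  unfold flex
  refine Real.sSup_le ?_ (by norm_num)
  rintro d ⟨P, hP, rfl⟩
  exact upperDensity_le hu hP

end Pool.Agent.P.MP_0e1483_co
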